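import Pool.Agent.Helper66.PD.Stmts

/-!
# Row CRO: a comparability crosses every bag in between
-/

set_option autoImplicit false

namespace Pool.Agent.Helper66.PD

theorem cro_chain {P : Type} [PartialOrder P] [Fintype P] {x y : P} (h : x ≤ y) :
    Relation.ReflTransGen (· ⋖ ·) x y := by
  classical
  letI : LocallyFiniteOrder P := Fintype.toLocallyFiniteOrder
  exact le_iff_reflTransGen_covBy.1 h

theorem cro_le {P : Type} [PartialOrder P] {x y : P}
    (h : Relation.ReflTransGen (· ⋖ ·) x y) : x ≤ y := by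
  induction h with
  | refl => exact le_rfl
  | tail _ hc ih => exact ih.trans hc.le

theorem cro_up {P : Type} [PartialOrder P] [Fintype P] {w h m : ℕ} {l r H : P → ℕ}
    (hR : Rep P w h m l r H) {x y : P} {p : ℕ} (hxy : Relation.ReflTransGen (· ⋖ ·) x y)
    (hx : l x ≤ p) (hy : p < l y) : ∃ b, x ≤ b ∧ b ≤ y ∧ l b ≤ p ∧ p ≤ r b := by
  induction hxy with
  | refl => omega
  | @tail z y hz hc ih =>
    by_cases h1 : p < l z
    · obtain ⟨b, hb1, hb2, hb3⟩ := ih h1
      exact ⟨b, hb1, hb2.trans hc.le, hb3⟩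
    · have h2 := (hR.adj z y hc).2
      exact ⟨z, cro_le hz, hc.le, by omega, by omega⟩

theorem cro_down {P : Type} [PartialOrder P] [Fintype P] {w h m : ℕ} {l r H : P → ℕ}
    (hR : Rep P w h m l r H) {x y : P} {p : ℕ} (hxy : Relation.ReflTransGen (· ⋖ ·) x y)
    (hx : p < l x) (hy : l y ≤ p) : ∃ b, x ≤ b ∧ b ≤ y ∧ l b ≤ p ∧ p ≤ r b := by
  induction hxy with
  | refl => omega
  | @tail z y hz hc ih =>
    by_cases h1 : l z ≤ p
    · obtain ⟨b, hb1, hb2, hb3⟩ := ih h1
      exact ⟨b, hb1, hb2.trans hc.le, hb3⟩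
    · have h2 := (hR.adj z y hc).1
      exact ⟨y, (cro_le hz).trans hc.le, le_rfl, hy, by omega⟩

theorem st_CRO : ST_CRO := by
  intro P _ _ w h m l r H hR x y p hxy hp
  rcases hp with hp | hp
  · exact cro_up hR (cro_chain hxy) hp.1 hp.2
  · exact cro_down hR (cro_chain hxy) hp.2 hp.1

end Pool.Agent.Helper66.PD
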